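import Pool.Agent.Helper63.XP.StA

/-!
# Project XP: module DUA (duality of the operator norms on `l^p` and `l^(p')`)
-/

set_option autoImplicit false

namespace Pool.Agent.Helper42.XP

open Finset
open Pool.Agent.Helper63.XP

/-- the dual vector -/
noncomputable def dv (q : ℝ) (z : ℂ) : ℂ := ((‖z‖ ^ (q - 2) : ℝ) : ℂ) * star z

lemma mul_dv (q : ℝ) (hq : 1 < q) (z : ℂ) : z * dv q z = ((‖z‖ ^ q : ℝ) : ℂ) := by
  unfold dv
  by_cases hz : z = 0
  · subst hz
    simp [Real.zero_rpow (by linarith : q ≠ 0)]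
  · have hn : 0 < ‖z‖ := norm_pos_iff.2 hz
    have h1 : z * star z = ((‖z‖ ^ (2 : ℝ) : ℝ) : ℂ) := by
      rw [Real.rpow_two]
      have := Complex.mul_conj z
      rw [Complex.normSq_eq_norm_sq] at this
      simpa using this
    calc z * (((‖z‖ ^ (q - 2) : ℝ) : ℂ) * star z)
        = ((‖z‖ ^ (q - 2) : ℝ) : ℂ) * (z * star z) := by ring
      _ = (((‖z‖ ^ (q - 2) * ‖z‖ ^ (2 : ℝ) : ℝ)) : ℂ) := by rw [h1]; push_cast; ring
      _ = ((‖z‖ ^ q : ℝ) : ℂ) := by rw [← Real.rpow_add hn]; congr 2; ring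

lemma norm_dv (p q : ℝ) (hp : 1 < p) (hq : 1 < q) (h : 1 / p + 1 / q = 1) (z : ℂ) :
    ‖dv q z‖ ^ p = ‖z‖ ^ q := by
  have hp0 : p ≠ 0 := by linarith
  have hq0 : q ≠ 0 := by linarith
  have hpq : (q - 1) * p = q := by
    have : q + p = p * q := by field_simp at h; linarith
    linarith
  by_cases hz : z = 0
  · subst hz
    simp [dv, Real.zero_rpow hp0, Real.zero_rpow hq0]
  · have hn : 0 < ‖z‖ := norm_pos_iff.2 hz
    have h1 : ‖dv q z‖ = ‖z‖ ^ (q - 1) := by
      unfold dv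
      rw [norm_mul, Complex.norm_real, norm_star, Real.norm_of_nonneg (Real.rpow_nonneg hn.le _)]
      have : ‖z‖ ^ (q - 1) = ‖z‖ ^ (q - 2) * ‖z‖ ^ (1 : ℝ) := by
        rw [← Real.rpow_add hn]; congr 1; ring
      rw [this, Real.rpow_one]
    rw [h1, ← Real.rpow_mul hn.le, hpq]

theorem hDUA : StDua := by
  intro m n _ _ p q M K hp hq hpq hK hM w
  have hp0 : p ≠ 0 := by linarith
  have hq0 : q ≠ 0 := by linarith
  set g : n → ℂ := M.transpose.mulVec w with hg
  set v : n → ℂ := fun j => dv q (g j) with hv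
  have hnn : ∀ (J : Type) [Fintype J] (r : ℝ) (f : J → ℂ), 0 ≤ np r f := fun J _ r f =>
    Finset.sum_nonneg fun j _ => Real.rpow_nonneg (norm_nonneg _) _
  have hv1 : np p v = np q g :=
    Finset.sum_congr rfl fun j _ => norm_dv p q hp hq hpq (g j)
  have hG : ((np q g : ℝ) : ℂ) = ∑ i, w i * (M.mulVec v) i := by
    have e1 : ((np q g : ℝ) : ℂ) = ∑ j, g j * v j := by
      unfold np
      push_cast
      exact Finset.sum_congr rfl fun j _ => by rw [hv]; simp only; rw [mul_dv q hq (g j)]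
    rw [e1]
    have e2 : ∀ j, g j * v j = ∑ i, M i j * w i * v j := by
      intro j
      rw [hg]
      simp only [Matrix.mulVec, dotProduct, Matrix.transpose_apply, Finset.sum_mul]
    simp only [e2]
    rw [Finset.sum_comm]
    refine Finset.sum_congr rfl fun i _ => ?_
    simp only [Matrix.mulVec, dotProduct, Finset.mul_sum]
    exact Finset.sum_congr rfl fun j _ => by ring
  have hG0 := hnn n q g
  have hle : np q g ≤ ∑ i, ‖w i‖ * ‖(M.mulVec v) i‖ := by
    have : ‖((np q g : ℝ) : ℂ)‖ = np q g := by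
      rw [Complex.norm_real, Real.norm_of_nonneg hG0]
    rw [← this, hG]
    refine (norm_sum_le _ _).trans (le_of_eq (Finset.sum_congr rfl fun i _ => norm_mul _ _))
  have hconj : q.HolderConjugate p := by
    rw [Real.holderConjugate_iff]
    refine ⟨hq, ?_⟩
    rw [← one_div, ← one_div]; linarith
  have hhol := Real.inner_le_Lp_mul_Lq Finset.univ (fun i => ‖w i‖) (fun i => ‖(M.mulVec v) i‖) hconj
  simp only [abs_norm] at hhol
  have hMv := hM v
  rw [hv1] at hMv
  have hKp : 0 ≤ K ^ p := Real.rpow_nonneg hK _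
  have h2 : (np p (M.mulVec v)) ^ (1 / p) ≤ K * (np q g) ^ (1 / p) := by
    have h3 := Real.rpow_le_rpow (hnn m p _) hMv (by positivity : (0 : ℝ) ≤ 1 / p)
    rw [Real.mul_rpow hKp hG0, ← Real.rpow_mul hK, mul_one_div_cancel hp0, Real.rpow_one] at h3
    exact h3
  have h3 : np q g ≤ (np q w) ^ (1 / q) * (K * (np q g) ^ (1 / p)) := by
    refine (hle.trans hhol).trans ?_
    exact mul_le_mul_of_nonneg_left h2 (Real.rpow_nonneg (hnn m q w) _)
  change np q g ≤ K ^ q * np q w
  have hKq : 0 ≤ K ^ q := Real.rpow_nonneg hK _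
  rcases hG0.eq_or_lt with h0 | hpos
  · rw [← h0]
    exact mul_nonneg hKq (hnn m q w)
  · have hpp : 0 < (np q g) ^ (1 / p) := Real.rpow_pos_of_pos hpos _
    have e : np q g = (np q g) ^ (1 / q) * (np q g) ^ (1 / p) := by
      rw [← Real.rpow_add hpos, add_comm, hpq, Real.rpow_one]
    have h4 : (np q g) ^ (1 / q) ≤ (np q w) ^ (1 / q) * K := by
      refine le_of_mul_le_mul_right ?_ hpp
      rw [← e]
      calc np q g ≤ _ := h3
        _ = _ := by ring
    have h5 := Real.rpow_le_rpow (Real.rpow_nonneg hG0 _) h4 (by linarith : (0 : ℝ) ≤ q)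
    rw [← Real.rpow_mul hG0, one_div_mul_cancel hq0, Real.rpow_one,
      Real.mul_rpow (Real.rpow_nonneg (hnn m q w) _) hK, ← Real.rpow_mul (hnn m q w),
      one_div_mul_cancel hq0, Real.rpow_one, mul_comm] at h5
    exact h5

end Pool.Agent.Helper42.XP
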